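import Pool.Agent.H.MP_f45ea1_an.Rep

namespace Pool.Agent.H.MP_f45ea1_an

open Finset

variable {𝕜 : Type} [RCLike 𝕜]

theorem low (K : ℕ) : ∃ m : ℕ, 0 < m ∧ ∀ r : ℝ,
    Rep (fun n => if n ∈ range m then (1 : 𝕜) else 0) r → (K : ℝ) * m ≤ r ^ 2 := by
  set N := 4 * K + 4 with hN
  set R := N * N with hR
  have N4 : 4 ≤ N := by omega
  have R2 : 2 ≤ R := by nlinarith
  refine ⟨4 * (N * R ^ (N + 1)), by positivity, fun r h => ?_⟩
  set m := 4 * (N * R ^ (N + 1)) with hm
  have m0 : 0 < m := by positivity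
  have m0' : (0 : ℝ) < m := by exact_mod_cast m0
  by_contra hlt
  push Not at hlt
  have r0 : 0 < r := by
    have h1 := h.l1 {0}
    rw [sum_singleton, if_pos (mem_range.2 m0), norm_one] at h1
    rcases h.nonneg.eq_or_lt with e | e
    · rw [← e] at h1; norm_num at h1
    · exact e
  obtain ⟨y, s, h1, h2, h3⟩ := h
  have N0 : (0 : ℝ) < N := by exact_mod_cast (by omega : 0 < N)
  have hfin : {i | r / N < s i}.Finite := by
    have := h3.summable.tendsto_cofinite_zero.eventually (gt_mem_nhds (div_pos r0 N0))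
    exact (Filter.eventually_cofinite.1 this).subset fun i hi => not_lt.2 (le_of_lt hi)
  set G := hfin.toFinset with hG
  have sG : ∑ i ∈ G, s i ≤ r := sum_le_hasSum G (fun i _ => (h1 i).1) h3
  have cG : G.card ≤ N := by
    have : (G.card : ℝ) * (r / N) ≤ r := by
      refine le_trans ?_ sG
      rw [← nsmul_eq_mul]
      exact card_nsmul_le_sum G s _ fun i hi => le_of_lt (hfin.mem_toFinset.1 hi)
    rw [← mul_div_assoc, div_le_iff₀ N0, mul_comm r] at this
    exact_mod_cast le_of_mul_le_mul_right this r0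
  have t := tail h1 h2 G
  have small := l1_of (η := r / N) t.1 t.2 (hasSum_cut h3 G) fun i => by
    split_ifs with hi
    · positivity
    · exact not_lt.1 fun h => hi (hfin.mem_toFinset.2 h)
  have s0 := fun i => (h1 i).1
  choose S hS1 hS2 hS3 using fun i => (h1 i).2
  obtain ⟨j, hj, hj'⟩ := exists_mem_notMem_of_card_lt_card
    (s := G.image fun i => Nat.log R (S i).card) (t := Icc 1 (N + 1))
    (by rw [Nat.card_Icc]; have := card_image_le (s := G) (f := fun i => Nat.log R (S i).card)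
        omega)
  rw [mem_Icc] at hj
  set w := R ^ j with hw
  have w0 : 0 < w := by positivity
  set T := (G.filter fun i => (S i).card < w).biUnion S with hT
  have cT : T.card ≤ N * w := by
    refine (card_biUnion_le_card_mul _ _ w fun i hi => (mem_filter.1 hi).2.le).trans ?_
    exact Nat.mul_le_mul_right _ ((card_filter_le _ _).trans cG)
  have cT' : 4 * T.card ≤ m := by
    have : w ≤ R ^ (N + 1) := Nat.pow_le_pow_right (by omega) hj.2
    have := Nat.mul_le_mul_left N this
    omega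
  set U := range m ∪ G.biUnion S with hU
  have TU : T ⊆ U := (biUnion_subset_biUnion_of_subset_left _ (filter_subset _ _)).trans
    subset_union_right
  have big : ∀ i ∈ G, ‖∑ n ∈ U \ T, y i n‖ ≤ s i ^ 2 / N := by
    intro i hi
    by_cases hn : (S i).card < w
    · rw [sum_eq_zero, norm_zero]
      · positivity
      · intro n hn'
        exact hS1 i n fun h => (mem_sdiff.1 hn').2 (mem_biUnion.2 ⟨i, mem_filter.2 ⟨hi, hn⟩, h⟩)
    · have c1 : R ^ (j + 1) ≤ (S i).card := by
        have l1 : j ≤ Nat.log R (S i).card := Nat.le_log_of_pow_le (by omega) (not_lt.1 hn)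
        have l2 : Nat.log R (S i).card ≠ j := fun e => hj' (mem_image.2 ⟨i, hi, e⟩)
        exact Nat.pow_le_of_le_log (by omega) (by omega)
      rw [pow_succ, ← hw] at c1
      have c2 : 2 ≤ (S i).card := by nlinarith
      have z : ∑ n ∈ U, y i n = 0 := by
        rw [← (hS2 i).resolve_left (by omega)]
        exact (sum_subset ((subset_biUnion_of_mem S hi).trans subset_union_right)
          fun n _ hn => hS1 i n hn).symm
      rw [← sum_sdiff TU] at z
      rw [eq_neg_of_add_eq_zero_left z, norm_neg, le_div_iff₀ N0]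
      have c3 : (T.card : ℝ) * N ≤ (S i).card := by
        have : T.card * N ≤ (S i).card := by nlinarith
        exact_mod_cast this
      have c0 : (0 : ℝ) < (S i).card := by exact_mod_cast (by omega : 0 < (S i).card)
      refine le_of_mul_le_mul_left ?_ c0
      calc _ ≤ ((S i).card : ℝ) * ((∑ n ∈ T, ‖y i n‖) * N) := by
            gcongr; exact norm_sum_le _ _
        _ = (∑ n ∈ T, ((S i).card : ℝ) * ‖y i n‖) * N := by rw [← mul_sum]; ring
        _ ≤ (∑ n ∈ T, s i ^ 2) * N := by gcongr with n; exact hS3 i n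
        _ = (T.card * N) * s i ^ 2 := by rw [sum_const, nsmul_eq_mul]; ring
        _ ≤ _ := by gcongr
  have big' : ‖∑ i ∈ G, ∑ n ∈ U \ T, y i n‖ ≤ r ^ 2 / N := by
    refine (norm_sum_le _ _).trans ((sum_le_sum big).trans ?_)
    rw [← sum_div]
    gcongr
    calc ∑ i ∈ G, s i ^ 2 ≤ ∑ i ∈ G, r * s i := sum_le_sum fun i _ => by
          rw [sq]; exact mul_le_mul_of_nonneg_right (le_hasSum h3 i fun j _ => s0 j) (s0 i)
      _ ≤ r ^ 2 := by rw [← mul_sum, sq]; gcongr
  have sm' : ‖∑ n ∈ U \ T, ((fun n => if n ∈ range m then (1 : 𝕜) else 0) - ∑ i ∈ G, y i) n‖ ≤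
      r ^ 2 / N := by
    refine (norm_sum_le _ _).trans ((small _).trans ?_)
    have : 0 ≤ ∑ i ∈ G, s i := sum_nonneg fun i _ => s0 i
    calc r / N * (r - ∑ i ∈ G, s i) ≤ r / N * r := by gcongr; linarith
      _ = _ := by ring
  have tot : ((range m \ T).card : 𝕜) =
      ∑ n ∈ U \ T, ((fun n => if n ∈ range m then (1 : 𝕜) else 0) - ∑ i ∈ G, y i) n +
        ∑ i ∈ G, ∑ n ∈ U \ T, y i n := by
    simp only [Pi.sub_apply, Finset.sum_apply, sum_sub_distrib]
    rw [sum_comm (s := G), sub_add_cancel, sum_ite_mem, sum_const, nsmul_one]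
    congr 2
    ext n
    simp only [hU, mem_sdiff, mem_inter, mem_union]
    tauto
  have fin : ((range m \ T).card : ℝ) ≤ r ^ 2 / N + r ^ 2 / N := by
    rw [← RCLike.norm_natCast (K := 𝕜), tot]
    exact (norm_add_le _ _).trans (add_le_add sm' big')
  have c4 : m ≤ (range m \ T).card + T.card := by
    simpa using card_le_card_sdiff_add_card (s := range m) (t := T)
  have c5 : (3 : ℝ) * m ≤ 4 * (range m \ T).card := by
    have : 3 * m ≤ 4 * (range m \ T).card := by omega
    exact_mod_cast this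
  have c6 : r ^ 2 / N ≤ m / 4 := by
    rw [div_le_div_iff₀ N0 (by norm_num), hN]
    push_cast
    nlinarith
  linarith

theorem semi {x : ℕ → 𝕜} (A B : Finset ℕ) (hA : ∀ n ∈ A, ∀ k ∉ A, ‖x k‖ ≤ ‖x n‖)
    (hB : B.card ≤ A.card) {y : ℕ → 𝕜} {r : ℝ} (hy : Rep y r) (hxy : ∀ n ∉ B, y n = x n) :
    ∃ z : ℕ → 𝕜, Rep z (5 * r) ∧ ∀ n ∉ A, z n = x n := by
  have hc : (B \ A).card ≤ (A \ B).card := card_sdiff_le_card_sdiff_iff.2 hB
  obtain ⟨τ, hτ1, hτ2⟩ : ∃ τ : ℕ → ℕ, Set.MapsTo τ (B \ A : Finset ℕ) (A \ B : Finset ℕ) ∧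
      Set.InjOn τ (B \ A : Finset ℕ) := by
    obtain ⟨e⟩ : Nonempty (↥(B \ A) ↪ ↥(A \ B)) :=
      Function.Embedding.nonempty_of_card_le (by simpa using hc)
    refine ⟨fun j => if h : j ∈ B \ A then (e ⟨j, h⟩).1 else 0, fun j hj => ?_,
      fun a ha b hb h => ?_⟩
    · have hj' : j ∈ B \ A := hj
      simp only [dif_pos hj']
      exact (e ⟨j, hj'⟩).2
    · have ha' : a ∈ B \ A := ha
      have hb' : b ∈ B \ A := hb
      simp only [dif_pos ha', dif_pos hb'] at h
      exact congrArg Subtype.val (e.injective (Subtype.ext h))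
  set D := B \ A with hD
  have τA : ∀ j ∈ D, τ j ∈ A ∧ τ j ∉ B := fun j hj => mem_sdiff.1 (hτ1 hj)
  have τD : ∀ j ∈ D, τ j ∉ D := fun j hj h => (τA j hj).2 (mem_sdiff.1 h).1
  let σ : ℕ → ℕ := fun j => if j ∈ D then τ j else j
  let P : ℕ → Finset ℕ := fun n => (insert n D).filter fun j => σ j = n
  have hP : ∀ n j, j ∈ P n ↔ σ j = n := by
    intro n j
    simp only [P, mem_filter, mem_insert, and_iff_right_iff_imp, σ]
    split_ifs with h
    · exact fun _ => Or.inr h
    · exact Or.inl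
  have h2P : ∀ n, (P n).card ≤ 2 := by
    intro n
    have : P n ⊆ insert n (D.filter fun j => τ j = n) := by
      intro j hj
      rw [hP] at hj
      simp only [σ] at hj
      split_ifs at hj with h
      · exact mem_insert_of_mem (mem_filter.2 ⟨h, hj⟩)
      · exact hj ▸ mem_insert_self _ _
    refine (card_le_card this).trans ((card_insert_le _ _).trans ?_)
    have : (D.filter fun j => τ j = n).card ≤ 1 := card_le_one.2 fun a ha b hb =>
      hτ2 (mem_filter.1 ha).1 (mem_filter.1 hb).1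
        ((mem_filter.1 ha).2.trans (mem_filter.1 hb).2.symm)
    omega
  let u : ℕ → 𝕜 := fun n => if n ∈ D then x n else 0
  have mvoff : ∀ (v : ℕ → 𝕜) n, n ∉ A → mv P v n = if n ∈ D then 0 else v n := by
    intro v n hn
    split_ifs with h
    · refine sum_eq_zero fun j hj => ?_
      rw [hP] at hj
      simp only [σ] at hj
      split_ifs at hj with h'
      · exact absurd (hj ▸ h) (τD j h')
      · exact absurd (hj ▸ h) h'
    · refine sum_eq_single_of_mem n ((hP _ _).2 (if_neg h)) fun j hj hjn => ?_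
      rw [hP] at hj
      simp only [σ] at hj
      split_ifs at hj with h'
      · exact absurd (hj ▸ (τA j h').1) hn
      · exact absurd hj hjn
  have r0 := hy.nonneg
  have ub : ∀ j, (D.card : ℝ) * ‖u j‖ ≤ r ^ 2 := by
    intro j
    simp only [u]
    split_ifs with h
    · refine le_trans ?_ (hy.l1 (A \ B))
      have c : (D.card : ℝ) ≤ (A \ B).card := by exact_mod_cast hc
      refine (mul_le_mul_of_nonneg_right c (norm_nonneg _)).trans ?_
      rw [← nsmul_eq_mul]
      refine card_nsmul_le_sum _ _ _ fun n hn => ?_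
      rw [hxy n (mem_sdiff.1 hn).2]
      exact hA n (mem_sdiff.1 hn).1 j (mem_sdiff.1 h).2
    · simpa using sq_nonneg r
  have mvu : ∀ n, mv P u n = ∑ j ∈ D with σ j = n, u j := by
    intro n
    refine (sum_subset_zero_on_sdiff (s₁ := D.filter fun j => σ j = n) (fun j hj => ?_)
      (fun j hj => ?_) fun _ _ => rfl).symm
    · exact (hP n j).2 (mem_filter.1 hj).2
    · rw [mem_sdiff, hP, mem_filter] at hj
      exact if_neg fun h => hj.2 ⟨h, hj.1⟩
  have hv : Atom (u - mv P u) (3 * r) := by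
    refine ⟨by positivity, D ∪ D.image σ, fun n hn => ?_, Or.inr ?_, fun n => ?_⟩
    · rw [mem_union, not_or] at hn
      rw [Pi.sub_apply, mvu, sum_eq_zero fun j hj => absurd
        (mem_image.2 ⟨j, (mem_filter.1 hj).1, (mem_filter.1 hj).2⟩) hn.2, sub_zero]
      exact if_neg hn.1
    · simp only [Pi.sub_apply, sum_sub_distrib, mvu]
      rw [sum_fiberwise_of_maps_to (fun j hj => mem_union_right _ (mem_image_of_mem σ hj)) u,
        sub_eq_zero]
      exact (sum_subset subset_union_left fun n _ hn => if_neg hn).symm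
    · have c1 : ((D ∪ D.image σ).card : ℝ) ≤ 2 * D.card := by
        have := card_union_le D (D.image σ)
        have := card_image_le (s := D) (f := σ)
        exact_mod_cast (by omega : (D ∪ D.image σ).card ≤ 2 * D.card)
      have c2 : ((P n).card : ℝ) ≤ 2 := by exact_mod_cast h2P n
      have c3 : (D.card : ℝ) * ∑ j ∈ P n, ‖u j‖ ≤ 2 * r ^ 2 := by
        rw [mul_sum]
        refine (sum_le_sum fun j _ => ub j).trans ?_
        rw [sum_const, nsmul_eq_mul]; nlinarith [sq_nonneg r]
      have c4 : ‖(u - mv P u) n‖ ≤ ‖u n‖ + ∑ j ∈ P n, ‖u j‖ :=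
        (norm_sub_le _ _).trans (add_le_add le_rfl (norm_sum_le _ _))
      have c5 := ub n
      calc _ ≤ 2 * D.card * (‖u n‖ + ∑ j ∈ P n, ‖u j‖) :=
            mul_le_mul c1 c4 (norm_nonneg _) (by positivity)
        _ ≤ _ := by nlinarith [sq_nonneg r]
  refine ⟨mv P y + (u - mv P u), ?_, fun n hn => ?_⟩
  · rw [show 5 * r = 2 * r + 3 * r by ring]
    exact (hy.mv σ P hP h2P).add hv.rep
  · simp only [Pi.add_apply, Pi.sub_apply, mvoff _ n hn, u]
    split_ifs with h
    · simp
    · rw [hxy n fun hb => h (mem_sdiff.2 ⟨hb, hn⟩)]; simp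

end Pool.Agent.H.MP_f45ea1_an
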