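import Mathlib

namespace Pool.Agent.H.MP_f45ea1_an

open Finset

variable {𝕜 : Type} [RCLike 𝕜]

def Atom (y : ℕ → 𝕜) (s : ℝ) : Prop :=
  0 ≤ s ∧ ∃ S : Finset ℕ, (∀ n ∉ S, y n = 0) ∧ (S.card ≤ 1 ∨ ∑ n ∈ S, y n = 0) ∧
    ∀ n, S.card * ‖y n‖ ≤ s ^ 2

def RepI (ι : Type) (x : ℕ → 𝕜) (r : ℝ) : Prop :=
  ∃ (y : ι → ℕ → 𝕜) (s : ι → ℝ), (∀ i, Atom (y i) (s i)) ∧
    (∀ n, HasSum (fun i => y i n) (x n)) ∧ HasSum s r

abbrev Rep (x : ℕ → 𝕜) (r : ℝ) : Prop := RepI ℕ x r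

theorem RepI.equiv {ι : Type} (e : ℕ ≃ ι) {x : ℕ → 𝕜} {r : ℝ} (h : RepI ι x r) : Rep x r := by
  obtain ⟨y, s, h1, h2, h3⟩ := h
  exact ⟨y ∘ e, s ∘ e, fun i => h1 _, fun n => e.hasSum_iff.2 (h2 n), e.hasSum_iff.2 h3⟩

theorem Atom.zero : Atom (0 : ℕ → 𝕜) 0 := ⟨le_rfl, ∅, by simp, by simp, by simp⟩

theorem Atom.l1 {y : ℕ → 𝕜} {s : ℝ} (h : Atom y s) (F : Finset ℕ) :
    ∑ n ∈ F, ‖y n‖ ≤ s ^ 2 := by
  obtain ⟨-, S, h1, -, h3⟩ := h
  have e : ∑ n ∈ F, ‖y n‖ ≤ ∑ n ∈ S, ‖y n‖ := by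
    rw [← sum_filter_add_sum_filter_not F (· ∈ S)]
    rw [sum_eq_zero (s := F.filter fun n => ¬ n ∈ S) fun n hn => by
      rw [h1 n (mem_filter.1 hn).2, norm_zero], add_zero]
    exact sum_le_sum_of_subset_of_nonneg (fun n hn => (mem_filter.1 hn).2)
      fun _ _ _ => norm_nonneg _
  refine e.trans ?_
  rcases S.eq_empty_or_nonempty with rfl | hS
  · simpa using sq_nonneg s
  · have c0 : (0 : ℝ) < S.card := by exact_mod_cast hS.card_pos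
    refine le_of_mul_le_mul_left ?_ c0
    rw [mul_sum]
    refine (sum_le_sum fun n _ => h3 n).trans ?_
    simp

theorem Atom.smul {y : ℕ → 𝕜} {s : ℝ} (h : Atom y s) (c : 𝕜) : Atom (c • y) (√‖c‖ * s) := by
  obtain ⟨h0, S, h1, h2, h3⟩ := h
  refine ⟨by positivity, S, fun n hn => by simp [h1 n hn], ?_, fun n => ?_⟩
  · refine h2.imp id fun h => ?_
    simp only [Pi.smul_apply, smul_eq_mul, ← mul_sum, h, mul_zero]
  · rw [mul_pow, Real.sq_sqrt (norm_nonneg _), Pi.smul_apply, norm_smul, mul_left_comm]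
    exact mul_le_mul_of_nonneg_left (h3 n) (norm_nonneg _)

theorem Rep.smul {x : ℕ → 𝕜} {r : ℝ} (h : Rep x r) (c : 𝕜) : Rep (c • x) (√‖c‖ * r) := by
  obtain ⟨y, s, h1, h2, h3⟩ := h
  exact ⟨fun i => c • y i, fun i => √‖c‖ * s i, fun i => (h1 i).smul c,
    fun n => (h2 n).mul_left c, h3.mul_left _⟩

theorem Rep.add {x x' : ℕ → 𝕜} {r r' : ℝ} (h : Rep x r) (h' : Rep x' r') :
    Rep (x + x') (r + r') := by
  obtain ⟨y, s, h1, h2, h3⟩ := h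
  obtain ⟨y', s', h1', h2', h3'⟩ := h'
  refine RepI.equiv Equiv.natSumNatEquivNat.symm ⟨Sum.elim y y', Sum.elim s s', ?_, fun n => ?_, ?_⟩
  · rintro (i | i)
    exacts [h1 i, h1' i]
  · exact HasSum.sum (h2 n) (h2' n)
  · exact HasSum.sum h3 h3'

theorem Atom.rep {y : ℕ → 𝕜} {s : ℝ} (h : Atom y s) : Rep y s := by
  refine ⟨fun i => if i = 0 then y else 0, fun i => if i = 0 then s else 0, fun i => ?_,
    fun n => ?_, hasSum_ite_eq 0 s⟩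
  · by_cases e : i = 0 <;> simp only [e, if_true, if_false]
    exacts [h, Atom.zero]
  · have := hasSum_ite_eq (0 : ℕ) (y n)
    simpa only [ite_apply, Pi.zero_apply] using this

theorem Rep.nonneg {x : ℕ → 𝕜} {r : ℝ} (h : Rep x r) : 0 ≤ r := by
  obtain ⟨y, s, h1, -, h3⟩ := h
  exact h3.nonneg fun i => (h1 i).1

theorem l1_of {x : ℕ → 𝕜} {r η : ℝ} {y : ℕ → ℕ → 𝕜} {s : ℕ → ℝ} (h1 : ∀ i, Atom (y i) (s i))
    (h2 : ∀ n, HasSum (fun i => y i n) (x n)) (h3 : HasSum s r) (hη : ∀ i, s i ≤ η)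
    (F : Finset ℕ) : ∑ n ∈ F, ‖x n‖ ≤ η * r := by
  have b : ∀ i (F : Finset ℕ), ∑ n ∈ F, ‖y i n‖ ≤ η * s i := fun i F =>
    ((h1 i).l1 F).trans (by rw [sq]; exact mul_le_mul_of_nonneg_right (hη i) (h1 i).1)
  have sm : ∀ n, Summable fun i => ‖y i n‖ := fun n =>
    (h3.mul_left η).summable.of_nonneg_of_le (fun _ => norm_nonneg _) fun i => by
      simpa using b i {n}
  calc _ ≤ ∑ n ∈ F, ∑' i, ‖y i n‖ :=
        sum_le_sum fun n _ => (h2 n).norm_le_of_bounded (sm n).hasSum fun _ => le_rfl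
    _ ≤ _ := hasSum_le (fun i => b i F) (hasSum_sum fun n _ => (sm n).hasSum) (h3.mul_left η)

theorem Rep.l1 {x : ℕ → 𝕜} {r : ℝ} (h : Rep x r) (F : Finset ℕ) : ∑ n ∈ F, ‖x n‖ ≤ r ^ 2 := by
  obtain ⟨y, s, h1, h2, h3⟩ := h
  rw [sq]
  exact l1_of h1 h2 h3 (fun i => le_hasSum h3 i fun j _ => (h1 j).1) F

theorem Rep.tsum {u : ℕ → ℕ → 𝕜} {r : ℕ → ℝ} {R : ℝ} (h : ∀ k, Rep (u k) (r k))
    (hR : HasSum r R) : ∃ x : ℕ → 𝕜, (∀ n, HasSum (fun k => u k n) (x n)) ∧ Rep x R := by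
  choose y s h1 h2 h3 using h
  have s0 : ∀ p : ℕ × ℕ, 0 ≤ s p.1 p.2 := fun p => (h1 _ _).1
  have sm : Summable fun p : ℕ × ℕ => s p.1 p.2 := by
    rw [summable_prod_of_nonneg s0]
    refine ⟨fun k => (h3 k).summable, ?_⟩
    simpa only [(h3 _).tsum_eq] using hR.summable
  have hs : HasSum (fun p : ℕ × ℕ => s p.1 p.2) R := by
    rw [← (sm.hasSum.prod_fiberwise h3).unique hR]; exact sm.hasSum
  have sy : ∀ n, Summable fun p : ℕ × ℕ => y p.1 p.2 n := fun n => by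
    refine Summable.of_norm_bounded (sm.mul_left R) fun p => ?_
    have a := (h1 p.1 p.2).l1 {n}
    have b := le_hasSum hs p fun j _ => s0 j
    rw [sum_singleton, sq] at a
    exact a.trans (mul_le_mul_of_nonneg_right b (s0 p))
  refine ⟨fun n => ∑' p : ℕ × ℕ, y p.1 p.2 n,
    fun n => (sy n).hasSum.prod_fiberwise fun k => h2 k n, ?_⟩
  exact RepI.equiv Nat.pairEquiv.symm
    ⟨fun p => y p.1 p.2, fun p => s p.1 p.2, fun p => h1 _ _, fun n => (sy n).hasSum, hs⟩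

theorem hasSum_cut {E : Type*} [NormedAddCommGroup E] {f : ℕ → E} {a : E} (h : HasSum f a)
    (G : Finset ℕ) : HasSum (fun i => if i ∈ G then 0 else f i) (a - ∑ i ∈ G, f i) := by
  have h1 : HasSum (fun i => if i ∈ G then f i else 0) (∑ i ∈ G, f i) := by
    have := hasSum_sum_of_ne_finset_zero (f := fun i => if i ∈ G then f i else 0) (s := G)
      (L := SummationFilter.unconditional ℕ) fun i hi => if_neg hi
    rwa [sum_congr rfl fun i hi => if_pos hi] at this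
  have e : (fun i => if i ∈ G then 0 else f i) = fun i => f i - if i ∈ G then f i else 0 := by
    funext i; split_ifs <;> simp
  rw [e]; exact h.sub h1

theorem tail {x : ℕ → 𝕜} {y : ℕ → ℕ → 𝕜} {s : ℕ → ℝ} (h1 : ∀ i, Atom (y i) (s i))
    (h2 : ∀ n, HasSum (fun i => y i n) (x n)) (G : Finset ℕ) :
    (∀ i, Atom (if i ∈ G then 0 else y i) (if i ∈ G then 0 else s i)) ∧
      ∀ n, HasSum (fun i => (if i ∈ G then 0 else y i) n) ((x - ∑ i ∈ G, y i) n) := by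
  refine ⟨fun i => ?_, fun n => ?_⟩
  · split_ifs
    exacts [Atom.zero, h1 i]
  · have := hasSum_cut (h2 n) G
    simpa only [ite_apply, Pi.zero_apply, Pi.sub_apply, Finset.sum_apply] using this

def mv (P : ℕ → Finset ℕ) (y : ℕ → 𝕜) : ℕ → 𝕜 := fun n => ∑ j ∈ P n, y j

theorem Atom.mv {y : ℕ → 𝕜} {s : ℝ} (h : Atom y s) (σ : ℕ → ℕ) (P : ℕ → Finset ℕ)
    (hP : ∀ n j, j ∈ P n ↔ σ j = n) (h2P : ∀ n, (P n).card ≤ 2) : Atom (mv P y) (2 * s) := by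
  obtain ⟨h0, S, h1, h2, h3⟩ := h
  have e : ∀ n, Pool.Agent.H.MP_f45ea1_an.mv P y n = ∑ j ∈ S with σ j = n, y j := by
    intro n
    refine (sum_subset_zero_on_sdiff (s₁ := S.filter fun j => σ j = n) (fun j hj => ?_)
      (fun j hj => ?_) fun _ _ => rfl).symm
    · exact (hP n j).2 (mem_filter.1 hj).2
    · rw [mem_sdiff, mem_filter, hP] at hj
      exact h1 j fun h => hj.2 ⟨h, hj.1⟩
  refine ⟨by positivity, S.image σ, fun n hn => ?_, ?_, fun n => ?_⟩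
  · rw [e]
    exact sum_eq_zero fun j hj =>
      absurd (mem_image.2 ⟨j, (mem_filter.1 hj).1, (mem_filter.1 hj).2⟩) hn
  · refine h2.imp (fun h => card_image_le.trans h) fun h => ?_
    rw [← h]
    simp only [e]
    exact sum_fiberwise_of_maps_to (fun j hj => mem_image_of_mem σ hj) y
  · have c1 : ((S.image σ).card : ℝ) ≤ S.card := by exact_mod_cast card_image_le
    have c2 : ((P n).card : ℝ) ≤ 2 := by exact_mod_cast h2P n
    calc _ ≤ (S.card : ℝ) * ∑ j ∈ P n, ‖y j‖ :=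
          mul_le_mul c1 (norm_sum_le _ _) (norm_nonneg _) (Nat.cast_nonneg _)
      _ ≤ ∑ j ∈ P n, s ^ 2 := by rw [mul_sum]; exact sum_le_sum fun j _ => h3 j
      _ ≤ _ := by rw [sum_const, nsmul_eq_mul]; nlinarith [sq_nonneg s]

theorem Rep.mv {x : ℕ → 𝕜} {r : ℝ} (h : Rep x r) (σ : ℕ → ℕ) (P : ℕ → Finset ℕ)
    (hP : ∀ n j, j ∈ P n ↔ σ j = n) (h2P : ∀ n, (P n).card ≤ 2) : Rep (mv P x) (2 * r) := by
  obtain ⟨y, s, h1, h2, h3⟩ := h
  exact ⟨fun i => Pool.Agent.H.MP_f45ea1_an.mv P (y i), fun i => 2 * s i,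
    fun i => (h1 i).mv σ P hP h2P, fun n => hasSum_sum fun j _ => h2 j, h3.mul_left 2⟩

end Pool.Agent.H.MP_f45ea1_an
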