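import Pool.Agent.H.MP_f45ea1_an.Low

namespace Pool.Agent.H.MP_f45ea1_an

open Finset Filter Topology

variable {𝕜 : Type} [RCLike 𝕜]

def X (𝕜 : Type) [RCLike 𝕜] : Submodule 𝕜 (ℕ → 𝕜) where
  carrier := {x | ∃ r, Rep x r}
  add_mem' := fun ⟨_, h⟩ ⟨_, h'⟩ => ⟨_, h.add h'⟩
  zero_mem' := ⟨0, Atom.zero.rep⟩
  smul_mem' := fun c _ ⟨_, h⟩ => ⟨_, h.smul c⟩

noncomputable def rho (v : X 𝕜) : ℝ := sInf {r | Rep v.1 r}

theorem rho_le {v : X 𝕜} {r : ℝ} (h : Rep v.1 r) : rho v ≤ r :=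
  csInf_le ⟨0, fun _ h => Rep.nonneg h⟩ h

theorem rho_nonneg (v : X 𝕜) : 0 ≤ rho v := Real.sInf_nonneg fun _ h => Rep.nonneg h

theorem le_rho {v : X 𝕜} {c : ℝ} (h : ∀ r, Rep v.1 r → c ≤ r) : c ≤ rho v := le_csInf v.2 h

theorem rho_lt {v : X 𝕜} {c : ℝ} (h : rho v < c) : ∃ r, Rep v.1 r ∧ r < c :=
  exists_lt_of_csInf_lt v.2 h

theorem le_rho_sq {v : X 𝕜} {c : ℝ} (h : ∀ r, Rep v.1 r → c ≤ r ^ 2) : c ≤ rho v ^ 2 := by
  have : √c ≤ rho v := le_rho fun r hr => Real.sqrt_le_iff.2 ⟨hr.nonneg, h r hr⟩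
  exact (Real.sqrt_le_iff.1 this).2

theorem le_mul_rho {v : X 𝕜} {c a : ℝ} (ha : 0 < a) (h : ∀ r, Rep v.1 r → c ≤ a * r) :
    c ≤ a * rho v := by
  rw [← div_le_iff₀' ha]
  exact le_rho fun r hr => (div_le_iff₀' ha).2 (h r hr)

theorem rho_add (v w : X 𝕜) : rho (v + w) ≤ rho v + rho w := by
  rw [← sub_le_iff_le_add]
  refine le_rho fun r hr => ?_
  rw [sub_le_comm]
  refine le_rho fun r' hr' => ?_
  have := rho_le (v := v + w) (hr.add hr')
  linarith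

theorem rho_zero : rho (0 : X 𝕜) = 0 := le_antisymm (rho_le Atom.zero.rep) (rho_nonneg _)

theorem rho_smul_le (c : 𝕜) (v : X 𝕜) : rho (c • v) ≤ √‖c‖ * rho v := by
  by_cases h : c = 0
  · simp [h, rho_zero]
  · exact le_mul_rho (Real.sqrt_pos.2 (norm_pos_iff.2 h)) fun r hr =>
      rho_le (v := c • v) (hr.smul c)

noncomputable def q (v : X 𝕜) : ℝ := rho v ^ 2

theorem sqrt_q (v : X 𝕜) : √(q v) = rho v := Real.sqrt_sq (rho_nonneg v)

theorem q_smul_le (c : 𝕜) (v : X 𝕜) : q (c • v) ≤ ‖c‖ * q v := by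
  have := pow_le_pow_left₀ (rho_nonneg _) (rho_smul_le c v) 2
  rwa [mul_pow, Real.sq_sqrt (norm_nonneg _)] at this

theorem q_smul (c : 𝕜) (v : X 𝕜) : q (c • v) = ‖c‖ * q v := by
  refine le_antisymm (q_smul_le c v) ?_
  by_cases h : c = 0
  · simp [h, q, rho_zero]
  · have := q_smul_le c⁻¹ (c • v)
    rw [inv_smul_smul₀ h, norm_inv, ← div_eq_inv_mul, le_div_iff₀' (norm_pos_iff.2 h)] at this
    exact this

theorem q_add (v w : X 𝕜) : q (v + w) ≤ 2 * (q v + q w) := by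
  have := pow_le_pow_left₀ (rho_nonneg _) (rho_add v w) 2
  unfold q
  nlinarith [sq_nonneg (rho v - rho w)]

def xs (n : ℕ) : X 𝕜 →ₗ[𝕜] 𝕜 := (LinearMap.proj n).comp (X 𝕜).subtype

theorem xs_apply (n : ℕ) (v : X 𝕜) : xs n v = v.1 n := rfl

theorem xs_le (n : ℕ) (v : X 𝕜) : ‖xs n v‖ ≤ q v :=
  le_rho_sq fun r hr => by simpa [xs_apply] using hr.l1 {n}

theorem total (v : X 𝕜) (h : ∀ n, xs n v = 0) : v = 0 := Subtype.ext (funext h)

theorem q_def (v : X 𝕜) (h : q v = 0) : v = 0 :=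
  total v fun n => norm_le_zero_iff.1 (h ▸ xs_le n v)

theorem atom_single (n : ℕ) : Atom (Pi.single n (1 : 𝕜) : ℕ → 𝕜) 1 := by
  refine ⟨zero_le_one, {n}, fun k hk => ?_, Or.inl (by simp), fun k => ?_⟩
  · exact Pi.single_eq_of_ne (by simpa using hk) _
  · by_cases e : k = n <;> simp [e]

noncomputable def x (n : ℕ) : X 𝕜 := ⟨Pi.single n 1, 1, (atom_single n).rep⟩

theorem xs_x (k n : ℕ) : xs k (x n : X 𝕜) = if k = n then 1 else 0 := Pi.single_apply n 1 k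

theorem q_x (n : ℕ) : q (x n : X 𝕜) ≤ 1 := by
  have := pow_le_pow_left₀ (rho_nonneg _) (rho_le (v := (x n : X 𝕜)) (atom_single n).rep) 2
  simpa [q] using this

theorem xs_sum (B : Finset ℕ) (a : ℕ → 𝕜) (k : ℕ) :
    xs k (∑ n ∈ B, a n • (x n : X 𝕜)) = if k ∈ B then a k else 0 := by
  simp [map_sum, xs_x]

theorem eq_sum (v : X 𝕜) (S : Finset ℕ) (h : ∀ n ∉ S, xs n v = 0) :
    v = ∑ n ∈ S, xs n v • x n := by
  rw [← sub_eq_zero]
  refine total _ fun k => ?_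
  rw [map_sub, xs_sum]
  split_ifs with hk
  · exact sub_self _
  · rw [h k hk, sub_zero]

theorem small_tail {s : ℕ → ℝ} {r δ : ℝ} (h : HasSum s r) (hδ : 0 < δ) :
    ∃ N, ∀ n ≥ N, r - ∑ i ∈ range n, s i < δ := by
  obtain ⟨N, hN⟩ := eventually_atTop.1
    (h.tendsto_sum_nat.eventually (lt_mem_nhds (show r - δ < r by linarith)))
  exact ⟨N, fun n hn => by linarith [hN n hn]⟩

theorem q_lt {v : X 𝕜} {ε : ℝ} (h : rho v < √ε) : q v < ε :=
  (Real.lt_sqrt (rho_nonneg v)).1 h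

theorem dense (v : X 𝕜) (ε : ℝ) (hε : 0 < ε) :
    ∃ g ∈ Submodule.span 𝕜 (Set.range (x (𝕜 := 𝕜))), q (v - g) < ε := by
  obtain ⟨r, y, s, h1, h2, h3⟩ := v.2
  obtain ⟨N, hN⟩ := small_tail h3 (Real.sqrt_pos.2 hε)
  let Y : ℕ → X 𝕜 := fun i => ⟨y i, _, (h1 i).rep⟩
  refine ⟨∑ i ∈ range N, Y i, Submodule.sum_mem _ fun i _ => ?_, q_lt ?_⟩
  · obtain ⟨-, S, hS, -⟩ := h1 i
    rw [eq_sum (Y i) S hS]
    exact Submodule.sum_mem _ fun n _ => Submodule.smul_mem _ _ (Submodule.subset_span ⟨n, rfl⟩)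
  · refine lt_of_le_of_lt (rho_le ?_) (hN N le_rfl)
    have t := tail h1 h2 (range N)
    rw [Submodule.coe_sub, Submodule.coe_sum]
    exact ⟨_, _, t.1, t.2, hasSum_cut h3 _⟩

theorem complete (u : ℕ → X 𝕜)
    (hu : ∀ ε : ℝ, 0 < ε → ∃ N : ℕ, ∀ m ≥ N, ∀ n ≥ N, q (u m - u n) < ε) :
    ∃ f : X 𝕜, ∀ ε : ℝ, 0 < ε → ∃ N : ℕ, ∀ n ≥ N, q (u n - f) < ε := by
  have hu' : ∀ δ : ℝ, 0 < δ → ∃ N : ℕ, ∀ m ≥ N, ∀ n ≥ N, rho (u m - u n) < δ := by
    intro δ hδ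
    obtain ⟨N, hN⟩ := hu (δ ^ 2) (by positivity)
    exact ⟨N, fun m hm n hn => lt_of_pow_lt_pow_left₀ 2 hδ.le (hN m hm n hn)⟩
  choose N hN using fun k : ℕ => hu' ((1 / 2) ^ k) (by positivity)
  let φ : ℕ → ℕ := fun k => ∑ i ∈ range (k + 1), N i
  have φN : ∀ k, N k ≤ φ k := fun k =>
    single_le_sum (f := N) (fun _ _ => Nat.zero_le _) (self_mem_range_succ k)
  have φm : Monotone φ := fun a b h => sum_le_sum_of_subset (range_mono (by omega))
  choose r hr hr' using fun k : ℕ => rho_lt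
    (hN k (φ k) (φN k) (φ (k + 1)) ((φN k).trans (φm (Nat.le_succ k))))
  have r0 : ∀ k, 0 ≤ r k := fun k => (hr k).nonneg
  have sr : Summable r := summable_geometric_two.of_nonneg_of_le r0 fun k => (hr' k).le
  obtain ⟨z, hz, hz'⟩ := Rep.tsum hr sr.hasSum
  let Z : X 𝕜 := ⟨z, _, hz'⟩
  have key : ∀ K, rho (u (φ K) - (u (φ 0) - Z)) ≤ ∑' k, r k - ∑ i ∈ range K, r i := by
    intro K
    obtain ⟨z', h1, h2⟩ := Rep.tsum
      (u := fun k => if k ∈ range K then 0 else (u (φ k) - u (φ (k + 1))).1)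
      (r := fun k => if k ∈ range K then 0 else r k)
      (fun k => by split_ifs; exacts [Atom.zero.rep, hr k]) (hasSum_cut sr.hasSum _)
    refine rho_le ?_
    have e : (u (φ K) - (u (φ 0) - Z)).1 = z' := by
      funext n
      have h3 := hasSum_cut (hz n) (range K)
      simp only [ite_apply, Pi.zero_apply] at h1
      rw [← h3.unique (h1 n)]
      have := sum_range_sub' (fun k => (u (φ k)).1 n) K
      simp only [Submodule.coe_sub, Pi.sub_apply, this, Z]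
      ring
    rw [e]; exact h2
  refine ⟨u (φ 0) - Z, fun ε hε => ?_⟩
  have d0 : 0 < √ε / 2 := half_pos (Real.sqrt_pos.2 hε)
  obtain ⟨K1, hK1⟩ := small_tail sr.hasSum d0
  obtain ⟨K2, hK2⟩ := exists_pow_lt_of_lt_one d0 (show (1 / 2 : ℝ) < 1 by norm_num)
  refine ⟨N K2, fun n hn => q_lt ?_⟩
  have a := hN K2 n hn (φ (max K1 K2)) ((φN K2).trans (φm (le_max_right _ _)))
  have b := (key (max K1 K2)).trans_lt (hK1 _ (le_max_left _ _))
  have c := rho_add (u n - u (φ (max K1 K2))) (u (φ (max K1 K2)) - (u (φ 0) - Z))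
  rw [sub_add_sub_cancel] at c
  linarith

theorem semi' (v : X 𝕜) (A B : Finset ℕ) (hA : ∀ n ∈ A, ∀ k ∉ A, ‖xs k v‖ ≤ ‖xs n v‖)
    (hB : B.card ≤ A.card) (b : ℕ → 𝕜) (c : ℝ)
    (hc : ∀ a : ℕ → 𝕜, c ≤ q (v - ∑ n ∈ A, a n • x n)) : c ≤ 25 * q (v - ∑ n ∈ B, b n • x n) := by
  rw [← div_le_iff₀' (by norm_num)]
  refine le_rho_sq fun r hr => ?_
  obtain ⟨z, hz, hz'⟩ := semi (x := v.1) A B hA hB hr fun n hn => by
    rw [← xs_apply, map_sub, xs_sum, if_neg hn, sub_zero, xs_apply]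
  let Z : X 𝕜 := ⟨z, _, hz⟩
  have e := eq_sum (v - Z) A fun n hn => by
    rw [map_sub, xs_apply, xs_apply, sub_eq_zero]; exact (hz' n hn).symm
  have h := hc fun n => xs n (v - Z)
  rw [← e, sub_sub_cancel] at h
  have := pow_le_pow_left₀ (rho_nonneg _) (rho_le (v := Z) hz) 2
  unfold q at h
  rw [div_le_iff₀' (by norm_num)]
  nlinarith

theorem notqg (C : ℝ) : ∃ (v : X 𝕜) (A : Finset ℕ), (∀ n ∈ A, ∀ k ∉ A, ‖xs k v‖ ≤ ‖xs n v‖) ∧
    0 < q v ∧ C * q v < q (v - ∑ n ∈ A, xs n v • x n) := by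
  obtain ⟨K, hK⟩ := exists_nat_gt (2 * max C 0)
  obtain ⟨m, m0, hm⟩ := low (𝕜 := 𝕜) K
  have m0' : (0 : ℝ) < m := by exact_mod_cast m0
  let w : ℕ → 𝕜 := fun n => if n ∈ range m then 1 else if n ∈ Ico m (2 * m) then -1 else 0
  have wn : ∀ n, ‖w n‖ ≤ 1 := by intro n; simp only [w]; split_ifs <;> simp
  have hw : Atom w √(2 * m) := by
    refine ⟨Real.sqrt_nonneg _, range (2 * m), fun n hn => ?_, Or.inr ?_, fun n => ?_⟩
    · simp only [w, mem_range, mem_Ico] at hn ⊢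
      rw [if_neg (by omega), if_neg (by omega)]
    · rw [← sum_range_add_sum_Ico w (show m ≤ 2 * m by omega),
        sum_congr rfl (g := fun _ => (1 : 𝕜)) fun n hn => if_pos hn,
        sum_congr rfl (s₁ := Ico m (2 * m)) (g := fun _ => (-1 : 𝕜)) fun n hn => by
          simp only [w, if_pos hn]
          exact if_neg (by simp only [mem_range, mem_Ico] at hn ⊢; omega)]
      simp [two_mul]
    · rw [Real.sq_sqrt (by positivity), card_range]
      push_cast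
      exact mul_le_of_le_one_right (by positivity) (wn n)
  let v : X 𝕜 := ⟨w, _, hw.rep⟩
  have qv : q v ≤ 2 * m := by
    have := pow_le_pow_left₀ (rho_nonneg _) (rho_le (v := v) hw.rep) 2
    rwa [Real.sq_sqrt (by positivity)] at this
  have qv0 : 0 < q v := by
    have := xs_le 0 v
    have e : xs 0 v = 1 := if_pos (mem_range.2 m0)
    rw [e, norm_one] at this
    linarith
  refine ⟨v, Ico m (2 * m), fun n hn k _ => ?_, qv0, ?_⟩
  · have e : xs n v = -1 := by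
      simp only [xs_apply, v, w, if_pos hn]
      exact if_neg (by simp only [mem_range, mem_Ico] at hn ⊢; omega)
    rw [e, norm_neg, norm_one]; exact wn k
  · have h1 : (K : ℝ) * m ≤ q (v - ∑ n ∈ Ico m (2 * m), xs n v • x n) := by
      refine le_rho_sq fun r hr => hm r ?_
      have e : (v - ∑ n ∈ Ico m (2 * m), xs n v • x n).1 =
          fun n => if n ∈ range m then (1 : 𝕜) else 0 := by
        funext n
        rw [← xs_apply, map_sub, xs_sum]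
        simp only [xs_apply, v, w, mem_range, mem_Ico]
        split_ifs <;> first | omega | simp
      rwa [e] at hr
    have h2 : C * q v ≤ max C 0 * (2 * m) :=
      (mul_le_mul_of_nonneg_right (le_max_left _ _) qv0.le).trans
        (mul_le_mul_of_nonneg_left qv (le_max_right _ _))
    nlinarith

end Pool.Agent.H.MP_f45ea1_an
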